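import Pool.Agent.Helper41x.GN.Op
import Pool.Agent.N498.GN.M1
import Pool.Agent.N455.GN.M2a
import Pool.Agent.N558.GN.M2b
import Pool.Agent.N157.GN.M2c
import Pool.Agent.N348.GN.M3
import Pool.Agent.N868.GN.M0

set_option autoImplicit false

/-!
# The kernel of the Ramanujan Xi-function
-/

namespace Pool.Agent.Helper41x.GN

open UpperHalfPlane hiding I
open Complex Filter Topology MeasureTheory MatrixGroups CongruenceSubgroup
open scoped ComplexConjugate ModularForm
open Pool.Agent.N963.GN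

lemma coe_Gamma1_one_le : (Gamma1 1 : Subgroup (GL (Fin 2) ℝ)) ≤ 𝒮ℒ := by
  rintro _ ⟨γ, _, rfl⟩
  exact ⟨γ, rfl⟩

/-- the discriminant as a form for `Γ₁(1)` -/
noncomputable def dForm : CuspForm (Gamma1 1 : Subgroup (GL (Fin 2) ℝ)) ((12 : ℕ) : ℤ) where
  toFun := CuspForm.discriminant
  slash_action_eq' g hg := CuspForm.discriminant.slash_action_eq' g (coe_Gamma1_one_le hg)
  holo' := CuspForm.discriminant.holo'
  zero_at_cusps' hc := CuspForm.discriminant.zero_at_cusps' (hc.mono coe_Gamma1_one_le)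

theorem dForm_apply (z : ℍ) : dForm z = ModularForm.discriminant z := rfl

theorem dForm_coe : (dForm : ℍ → ℂ) = ModularForm.discriminant := rfl

/-- the discriminant on the imaginary axis -/
noncomputable def dl (y : ℝ) : ℝ :=
  Real.exp (-2 * Real.pi * y) * ∏' n : ℕ, (1 - Real.exp (-2 * Real.pi * ((n : ℝ) + 1) * y)) ^ 24

theorem disc_I (y : ℝ) (hy : 0 < (I * (y : ℂ)).im) : ModularForm.discriminant ⟨I * (y : ℂ), hy⟩ = (dl y : ℂ) := by
  have h0 : Multipliable (fun n : ℕ => (1 - Real.exp (-2 * Real.pi * ((n : ℝ) + 1) * y)) ^ 24) := by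
    have hy' : 0 < y := by simpa using hy
    have h1 : Multipliable (fun n : ℕ => (1 - Real.exp (-2 * Real.pi * ((n : ℝ) + 1) * y))) := by
      have h2 : Summable (fun n : ℕ => -Real.exp (-2 * Real.pi * ((n : ℝ) + 1) * y)) := by
        refine Summable.neg ?_
        have h3 : Summable (fun n : ℕ => Real.exp (-2 * Real.pi * y) ^ (n + 1)) := by
          refine (summable_nat_add_iff 1).2 (summable_geometric_of_lt_one (Real.exp_pos _).le ?_)
          rw [Real.exp_lt_one_iff]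
          have := Real.pi_pos
          nlinarith
        refine h3.congr fun n => ?_
        rw [← Real.exp_nat_mul]
        congr 1
        push_cast
        ring
      have h4 := Real.multipliable_one_add_of_summable h2
      refine h4.congr fun n => ?_
      ring
    exact h1.pow 24
  rw [ModularForm.discriminant_eq_q_prod]
  unfold dl
  rw [Complex.ofReal_mul]
  have e1 : Function.Periodic.qParam 1 (I * (y : ℂ)) = ((Real.exp (-2 * Real.pi * y) : ℝ) : ℂ) := by
    unfold Function.Periodic.qParam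
    rw [Complex.ofReal_exp]
    congr 1
    push_cast
    linear_combination (2 * Real.pi * y) * I_mul_I
  congr 1
  have e2 := h0.map_tprod Complex.ofRealHom Complex.continuous_ofReal
  rw [Complex.ofRealHom_eq_coe] at e2
  rw [e2]
  congr 1
  funext n
  simp only [ModularForm.eta_q, Complex.ofRealHom_eq_coe]
  rw [e1]
  push_cast
  congr 2
  rw [← Complex.exp_nat_mul]
  congr 1
  push_cast
  ring

/-- the Ramanujan Xi-function -/
noncomputable def XiD (z : ℂ) : ℂ := mellin (fun y : ℝ => ((dl y : ℝ) : ℂ)) (6 + I * z)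

/-- The kernel with the constant `1`. -/
noncomputable def KD : ℂ → ℂ := Km 1 12 (fun w => dForm (UpperHalfPlane.ofComplex w)) 1

theorem KD_real (u : ℝ) : KD (u : ℂ) = ((dl (Real.exp u) * Real.exp (6 * u) : ℝ) : ℂ) := by
  unfold KD Km
  have hpos : 0 < (I * ((Real.exp u : ℝ) : ℂ)).im := by
    rw [Complex.im_mul_ofReal, Complex.I_im, one_mul]
    exact Real.exp_pos u
  have e1 : I * cexp (u : ℂ) / ((Real.sqrt ((1 : ℕ) : ℝ) : ℝ) : ℂ) = I * ((Real.exp u : ℝ) : ℂ) := by
    simp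
  rw [e1]
  beta_reduce
  rw [ofComplex_apply_of_im_pos hpos, dForm_apply, disc_I, one_mul, Complex.ofReal_mul, Complex.ofReal_exp (6 * u)]
  congr 2
  push_cast
  ring

theorem Lt_KD (z : ℂ) : Lt (fun u : ℝ => KD (u : ℂ)) z = XiD z := by
  unfold Lt XiD mellin
  rw [← Real.range_exp, ← Set.image_univ, integral_image_eq_integral_abs_deriv_smul MeasurableSet.univ
    (fun x _ => (Real.hasDerivAt_exp x).hasDerivWithinAt) Real.exp_injective.injOn, Measure.restrict_univ]
  refine integral_congr_ae (Eventually.of_forall fun u => ?_)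
  simp only
  rw [KD_real, abs_of_pos (Real.exp_pos u), Complex.ofReal_mul, smul_eq_mul, Complex.real_smul]
  have h1 : ((Real.exp u : ℝ) : ℂ) ^ (6 + I * z - 1) = cexp (u * (6 + I * z - 1)) := by
    rw [Complex.cpow_def_of_ne_zero (by exact_mod_cast (Real.exp_pos u).ne'), ← Complex.ofReal_log (Real.exp_pos u).le,
      Real.log_exp]
  rw [h1, Complex.ofReal_exp, Complex.ofReal_exp]
  have h2 : cexp (u : ℂ) * (cexp (u * (6 + I * z - 1)) * ((dl (Real.exp u) : ℝ) : ℂ)) =
      ((dl (Real.exp u) : ℝ) : ℂ) * (cexp (u : ℂ) * cexp (u * (6 + I * z - 1))) := by ring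
  rw [h2, mul_assoc, ← Complex.exp_add, ← Complex.exp_add]
  congr 2
  push_cast
  ring

theorem disc_conj (τ τ' : ℍ) (h : (τ' : ℂ) = -conj (τ : ℂ)) :
    ModularForm.discriminant τ' = conj (ModularForm.discriminant τ) := by
  rw [ModularForm.discriminant_eq_q_prod, ModularForm.discriminant_eq_q_prod, map_mul]
  have e1 : Function.Periodic.qParam 1 (τ' : ℂ) = conj (Function.Periodic.qParam 1 (τ : ℂ)) := by
    unfold Function.Periodic.qParam
    rw [← Complex.exp_conj, h]
    congr 1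
    simp only [map_div₀, map_mul, Complex.conj_ofReal, Complex.conj_I, Complex.conj_ofNat]
    ring
  have h0 : Multipliable (fun n : ℕ => (1 - ModularForm.eta_q n (τ : ℂ)) ^ 24) :=
    (ModularForm.multipliableLocallyUniformlyOn_eta.multipliable τ.2).pow 24
  have e2 := h0.map_tprod (starRingEnd ℂ) Complex.continuous_conj
  have e3 : ∀ n : ℕ, conj ((1 - ModularForm.eta_q n (τ : ℂ)) ^ 24) = (1 - ModularForm.eta_q n (τ' : ℂ)) ^ 24 := by
    intro n
    rw [map_pow, map_sub, map_one]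
    simp only [ModularForm.eta_q]
    rw [map_pow, ← e1]
  rw [e2, e1]
  simp only [e3]

theorem disc_S (τ τ' : ℍ) (h : (τ' : ℂ) * (τ : ℂ) = -1) :
    ModularForm.discriminant τ' = (τ : ℂ) ^ 12 * ModularForm.discriminant τ := by
  have h1 := SlashInvariantForm.slash_action_eqn_SL'' (Γ := Gamma1 1) dForm
    (γ := ModularGroup.S) (by
      rw [Gamma1_mem]
      refine ⟨Subsingleton.elim _ _, Subsingleton.elim _ _, Subsingleton.elim _ _⟩) τ
  rw [modular_S_smul, ModularGroup.denom_S, dForm_apply, dForm_apply] at h1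
  have h2 : τ' = UpperHalfPlane.mk (-(τ : ℂ))⁻¹ τ.im_inv_neg_coe_pos := by
    apply UpperHalfPlane.ext
    change (τ' : ℂ) = (-(τ : ℂ))⁻¹
    have h3 : (τ : ℂ) ≠ 0 := UpperHalfPlane.ne_zero τ
    rw [inv_neg]
    field_simp
    linear_combination h
  rw [h2, h1, zpow_natCast]

theorem dl_symm (u : ℝ) : dl (Real.exp (-u)) * Real.exp (6 * -u) = dl (Real.exp u) * Real.exp (6 * u) := by
  have p1 : 0 < (I * ((Real.exp u : ℝ) : ℂ)).im := by
    rw [Complex.im_mul_ofReal, Complex.I_im, one_mul]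
    exact Real.exp_pos u
  have p2 : 0 < (I * ((Real.exp (-u) : ℝ) : ℂ)).im := by
    rw [Complex.im_mul_ofReal, Complex.I_im, one_mul]
    exact Real.exp_pos _
  have h := disc_S ⟨_, p1⟩ ⟨_, p2⟩ (by
    change (I * ((Real.exp (-u) : ℝ) : ℂ)) * (I * ((Real.exp u : ℝ) : ℂ)) = -1
    have : ((Real.exp (-u) : ℝ) : ℂ) * ((Real.exp u : ℝ) : ℂ) = 1 := by
      rw [← Complex.ofReal_mul, ← Real.exp_add, neg_add_cancel, Real.exp_zero, Complex.ofReal_one]
    linear_combination (((Real.exp (-u) : ℝ) : ℂ) * ((Real.exp u : ℝ) : ℂ)) * I_mul_I - this)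
  rw [disc_I, disc_I] at h
  change _ = (I * ((Real.exp u : ℝ) : ℂ)) ^ 12 * _ at h
  have h12 : (I * ((Real.exp u : ℝ) : ℂ)) ^ 12 = ((Real.exp u ^ 12 : ℝ) : ℂ) := by
    rw [mul_pow]
    have : I ^ 12 = 1 := by
      rw [show (12 : ℕ) = 4 * 3 from rfl, pow_mul, I_pow_four, one_pow]
    rw [this, one_mul]
    push_cast
    rfl
  rw [h12, ← Complex.ofReal_mul] at h
  have h' : dl (Real.exp (-u)) = Real.exp u ^ 12 * dl (Real.exp u) := Complex.ofReal_injective h
  rw [h', ← Real.exp_nat_mul]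
  have : Real.exp (((12 : ℕ) : ℝ) * u) * Real.exp (6 * -u) = Real.exp (6 * u) := by
    rw [← Real.exp_add]
    congr 1
    push_cast
    ring
  linear_combination dl (Real.exp u) * this

theorem KD_herm (u : ℝ) : KD ((-u : ℝ) : ℂ) = conj (KD (u : ℂ)) := by
  rw [KD_real, KD_real, Complex.conj_ofReal, dl_symm]

theorem mf_delta : MF 1 12 (fun w => dForm (UpperHalfPlane.ofComplex w))
    (fun n => (qExpansion 1 dForm).coeff n) 1 := by
  obtain ⟨κ, h⟩ := Pool.Agent.N868.GN.t_M0 1 12 (by norm_num) dForm (by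
    rw [dForm_coe, ModularForm.discriminant_qExpansion_coeff_one]
    exact one_ne_zero) 1 one_ne_zero (by
    intro τ τ' τ'' h1 h2
    rw [dForm_apply, dForm_apply, disc_conj τ τ'' h2, Complex.conj_conj, one_mul]
    refine disc_S τ τ' ?_
    rw [← h1]
    push_cast
    ring)
  exact ⟨h.hN, h.hk, h.sum, h.b1, h.bb, h.bound, h.aut, one_ne_zero, KD_herm⟩

theorem kern_delta : Kern KD (Real.pi / 2) := Pool.Agent.N498.GN.M1 _ _ _ _ _ mf_delta

theorem ld_delta : LD (Lt (fun u : ℝ => KD (u : ℂ))) := Pool.Agent.N348.GN.m3 _ _ _ _ _ mf_delta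

theorem ms_delta : MS KD (Real.pi / 2) := by
  obtain ⟨C, d1, hC, hd1, hd11, h1⟩ := Pool.Agent.N455.GN.m2a _ _ _ _ _ mf_delta
  obtain ⟨c, d2, hc, hd2, hd21, h2⟩ := Pool.Agent.N558.GN.m2b Pool.Agent.N157.GN.m2c _ _ _ _ _ mf_delta
  have hpi : 1 < Real.pi / 2 := by
    have := Real.pi_gt_three
    linarith
  refine ⟨C, c, ((12 : ℕ) : ℝ), min d1 d2, hC, hc, by norm_num, lt_min hd1 hd2,
    ((min_le_left _ _).trans_lt hd11).trans hpi, (min_le_left _ _).trans_lt hd11, fun δ hδ hδ' σ hσ => ?_⟩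
  obtain ⟨i1, i2⟩ := h1 δ hδ (hδ'.trans (min_le_left _ _)) σ hσ
  exact ⟨i1, i2, h2 δ hδ (hδ'.trans (min_le_right _ _)) σ hσ⟩

/-- **The theorem for the Ramanujan Xi-function.** -/
theorem xi_main {φ : ℂ → ℂ} (hφ : LPc φ) {a0 : ℂ} (ha0 : φ a0 = 0) {G : ℂ → ℂ} (hG : Differentiable ℂ G)
    (hs : Sym G) (hgr : Gr2 G) (hGX : ∀ z : ℂ, HasSum (trm φ G z) (XiD z)) : (NRZ G).Infinite :=
  op_main kern_delta ms_delta ld_delta hφ ha0 hG hs hgr (fun z => by rw [Lt_KD]; exact hGX z)

end Pool.Agent.Helper41x.GN
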