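import Pool.Agent.N400.GN.H3
import Pool.Agent.N400.GN.H2
import Pool.Agent.N963.GN.Stm3
import Pool.Agent.Helper242.KK.BC

set_option autoImplicit false

/-!
# Factorisation of real entire functions of order less than two with finitely many non-real zeros
-/

namespace Pool.Agent.Helper41x.GN

open Complex Filter Topology Polynomial Metric
open scoped ComplexConjugate
open Pool.Agent.N963.GN Pool.Agent.Helper242.KK

/-- Growth with exponent `κ`. -/
def GrE (κ : ℝ) (f : ℂ → ℂ) : Prop := ∃ C : ℝ, 0 ≤ C ∧ ∀ z : ℂ, ‖f z‖ ≤ Real.exp (C * (1 + ‖z‖) ^ κ)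

lemma aeval_conj (P : ℝ[X]) (w : ℂ) : aeval (conj w) P = conj (aeval w P) := by
  have := Polynomial.aeval_conj P w
  exact this

/-- the quotient of a symmetric function by a real polynomial is symmetric -/
lemma sym_quot {F G : ℂ → ℂ} {P : ℝ[X]} (hP : P ≠ 0) (hG : Continuous G) (hF : Sym F)
    (h : ∀ w, F w = aeval w P * G w) : Sym G := by
  have hfin : ({w : ℂ | aeval w P = 0}).Finite := by
    have hP' : P.map (algebraMap ℝ ℂ) ≠ 0 :=
      (Polynomial.map_ne_zero_iff (algebraMap ℝ ℂ).injective).2 hP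
    refine ((P.map (algebraMap ℝ ℂ)).roots.toFinset.finite_toSet).subset fun w hw => ?_
    simp only [Finset.mem_coe, Multiset.mem_toFinset, Polynomial.mem_roots hP', Polynomial.IsRoot.def,
      Polynomial.eval_map_algebraMap]
    exact hw
  have hdense : Dense ({w : ℂ | aeval w P = 0}ᶜ) := hfin.countable.dense_compl ℝ
  have e : (fun w => G (conj w)) = fun w => conj (G w) := by
    refine Continuous.ext_on hdense (hG.comp continuous_conj) (continuous_conj.comp hG) fun w hw => ?_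
    have h1 : aeval w P ≠ 0 := hw
    have h2 : aeval (conj w) P ≠ 0 := by
      rw [aeval_conj]
      exact (_root_.map_ne_zero _).2 h1
    have h3 := hF w
    rw [h (conj w), h w, map_mul, aeval_conj] at h3
    exact mul_left_cancel₀ (by rwa [aeval_conj] at h2) h3
  exact fun w => congrFun e w

/-- splitting off all zeros in a disc, with a real polynomial -/
lemma split_real {ρ M : ℝ} (hρ : 0 < ρ) (n : ℕ) : ∀ F : ℂ → ℂ, Differentiable ℂ F → F 0 ≠ 0 → Sym F →
    (∀ w ∈ closedBall (0 : ℂ) (2 * ρ), ‖F w‖ ≤ Real.exp M) →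
    (∑ᶠ u, (MeromorphicOn.divisor F (closedBall 0 ρ) u : ℝ) * 1) ≤ n →
    ∃ (P : ℝ[X]) (G : ℂ → ℂ), P.eval 0 = 1 ∧ Differentiable ℂ G ∧ G 0 = F 0 ∧ Sym G ∧
      (∀ w ∈ closedBall (0 : ℂ) (2 * ρ), ‖G w‖ ≤ Real.exp M) ∧
      (∀ w, F w = aeval w P * G w) ∧ (∀ u ∈ closedBall (0 : ℂ) ρ, G u ≠ 0) := by
  induction n using Nat.strong_induction_on with
  | _ n ih =>
    intro F hF h0 hs hb hn
    by_cases hz : ∀ u ∈ closedBall (0 : ℂ) ρ, F u ≠ 0
    · exact ⟨1, F, by simp, hF, rfl, hs, hb, fun w => by simp, hz⟩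
    push Not at hz
    obtain ⟨u, hu, hFu⟩ := hz
    have hu0 : u ≠ 0 := by
      rintro rfl
      exact h0 hFu
    obtain ⟨G, hG, hG0, hGb, hFG, hdiv⟩ := lnz_split hF hρ h0 hb hu hFu
    rw [lnz_sum_split ρ u (fun _ => 1) hdiv] at hn
    have hGn : 0 ≤ ∑ᶠ u, (MeromorphicOn.divisor G (closedBall 0 ρ) u : ℝ) * 1 :=
      finsum_nonneg (fun u => mul_nonneg (by exact_mod_cast lnz_divisor_nonneg hG _ u) zero_le_one)
    by_cases him : u.im = 0
    · -- a real zero
      have hur : u = (u.re : ℂ) := by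
        apply Complex.ext <;> simp [him]
      have hur0 : u.re ≠ 0 := by
        intro h
        apply hu0
        rw [hur, h]
        simp
      obtain ⟨P1, hP1⟩ : ∃ P1 : ℝ[X], P1 = 1 - C (1 / u.re) * X := ⟨_, rfl⟩
      have hP1e : ∀ w : ℂ, aeval w P1 = 1 - w / u := by
        intro w
        rw [hP1]
        simp only [map_sub, map_one, map_mul, aeval_C, aeval_X]
        rw [hur]
        simp only [Complex.coe_algebraMap, ofReal_re]
        push_cast
        ring
      have hP10 : P1.eval 0 = 1 := by rw [hP1]; simp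
      have hP1n : P1 ≠ 0 := by
        intro h
        rw [h] at hP10
        simp at hP10
      have hFG' : ∀ w, F w = aeval w P1 * G w := fun w => by rw [hP1e, hFG]
      have hGs : Sym G := sym_quot hP1n hG.continuous hs hFG'
      have hn1 : 1 ≤ n := by
        have : (1 : ℝ) ≤ n := by linarith
        exact_mod_cast this
      obtain ⟨P2, G', hP20, hG', hG0', hGs', hGb', hFG2, hnz⟩ := ih (n - 1) (by omega) G hG
        (by rw [hG0]; exact h0) hGs hGb (by rw [Nat.cast_sub hn1]; push_cast; linarith)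
      refine ⟨P1 * P2, G', by rw [Polynomial.eval_mul, hP10, hP20, one_mul], hG', by rw [hG0', hG0], hGs', hGb',
        fun w => ?_, hnz⟩
      rw [hFG' w, hFG2 w, map_mul, mul_assoc]
    · -- a pair of conjugate zeros
      have hcu : conj u ≠ u := fun h => him (Complex.conj_eq_iff_im.1 h)
      have hcu0 : conj u ≠ 0 := (_root_.map_ne_zero _).2 hu0
      have hGcu : G (conj u) = 0 := by
        have h1 := hFG (conj u)
        rw [hs u, hFu, map_zero] at h1
        have h2 : 1 - conj u / u ≠ 0 := by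
          rw [sub_ne_zero]
          intro h
          rw [eq_div_iff hu0, one_mul] at h
          exact hcu h.symm
        exact (mul_eq_zero.1 h1.symm).resolve_left h2
      have hcumem : conj u ∈ closedBall (0 : ℂ) ρ := by
        rw [mem_closedBall_zero_iff, Complex.norm_conj]
        simpa using hu
      obtain ⟨G2, hG2, hG20, hG2b, hFG2, hdiv2⟩ := lnz_split hG hρ (by rw [hG0]; exact h0) hGb hcumem hGcu
      rw [lnz_sum_split ρ (conj u) (fun _ => 1) hdiv2] at hn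
      have hG2n : 0 ≤ ∑ᶠ u, (MeromorphicOn.divisor G2 (closedBall 0 ρ) u : ℝ) * 1 :=
        finsum_nonneg (fun u => mul_nonneg (by exact_mod_cast lnz_divisor_nonneg hG2 _ u) zero_le_one)
      obtain ⟨P1, hP1⟩ : ∃ P1 : ℝ[X], P1 = 1 - C (2 * u.re / normSq u) * X + C (1 / normSq u) * X ^ 2 :=
        ⟨_, rfl⟩
      have hP1e : ∀ w : ℂ, aeval w P1 = (1 - w / u) * (1 - w / conj u) := by
        intro w
        rw [hP1]
        simp only [map_sub, map_one, map_mul, aeval_C, aeval_X, map_add, map_pow]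
        simp only [Complex.coe_algebraMap]
        have h1 : ((2 * u.re / normSq u : ℝ) : ℂ) = (u + conj u) / (u * conj u) := by
          rw [Complex.add_conj, Complex.mul_conj]
          push_cast
          ring
        have h2 : ((1 / normSq u : ℝ) : ℂ) = 1 / (u * conj u) := by
          rw [Complex.mul_conj]
          push_cast
          ring
        rw [h1, h2]
        field_simp
        ring
      have hP10 : P1.eval 0 = 1 := by rw [hP1]; simp
      have hP1n : P1 ≠ 0 := by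
        intro h
        rw [h] at hP10
        simp at hP10
      have hFG' : ∀ w, F w = aeval w P1 * G2 w := fun w => by rw [hP1e, hFG, hFG2, mul_assoc]
      have hGs : Sym G2 := sym_quot hP1n hG2.continuous hs hFG'
      have hn2 : 2 ≤ n := by
        have : (2 : ℝ) ≤ n := by linarith
        exact_mod_cast this
      obtain ⟨P2, G', hP20, hG', hG0', hGs', hGb', hFG3, hnz⟩ := ih (n - 2) (by omega) G2 hG2
        (by rw [hG20, hG0]; exact h0) hGs hG2b (by rw [Nat.cast_sub hn2]; push_cast; linarith)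
      refine ⟨P1 * P2, G', by rw [Polynomial.eval_mul, hP10, hP20, one_mul], hG', by rw [hG0', hG20, hG0], hGs',
        hGb', fun w => ?_, hnz⟩
      rw [hFG' w, hFG3 w, map_mul, mul_assoc]

/-- the version without the count -/
lemma split_real' {ρ M : ℝ} (hρ : 0 < ρ) {F : ℂ → ℂ} (hF : Differentiable ℂ F) (h0 : F 0 ≠ 0) (hs : Sym F)
    (hb : ∀ w ∈ closedBall (0 : ℂ) (2 * ρ), ‖F w‖ ≤ Real.exp M) :
    ∃ (P : ℝ[X]) (G : ℂ → ℂ), P.eval 0 = 1 ∧ Differentiable ℂ G ∧ G 0 = F 0 ∧ Sym G ∧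
      (∀ w ∈ closedBall (0 : ℂ) (2 * ρ), ‖G w‖ ≤ Real.exp M) ∧
      (∀ w, F w = aeval w P * G w) ∧ (∀ u ∈ closedBall (0 : ℂ) ρ, G u ≠ 0) :=
  split_real hρ (⌈∑ᶠ u, (MeromorphicOn.divisor F (closedBall 0 ρ) u : ℝ) * 1⌉₊) F hF h0 hs hb (Nat.le_ceil _)

/-- uniform approximation of the exponential function -/
lemma pow_exp (A ε : ℝ) (hε : 0 < ε) : ∃ K : ℕ, 0 < K ∧ ∀ z : ℂ, ‖z‖ ≤ A → ‖(1 + z / K) ^ K - cexp z‖ ≤ ε := by
  obtain ⟨A', hA'⟩ : ∃ A' : ℝ, A' = max A 1 := ⟨_, rfl⟩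
  have hA1 : 1 ≤ A' := by rw [hA']; exact le_max_right _ _
  obtain ⟨K, hK⟩ := exists_nat_ge (max A' (A' ^ 2 * Real.exp A' / ε))
  have hKA : A' ≤ K := (le_max_left _ _).trans hK
  have hK0 : (0 : ℝ) < K := by linarith
  have hKn : 0 < K := by exact_mod_cast hK0
  have hK2 : A' ^ 2 * Real.exp A' / ε ≤ K := (le_max_right _ _).trans hK
  refine ⟨K, hKn, fun z hz => ?_⟩
  have hzA : ‖z‖ ≤ A' := hz.trans (by rw [hA']; exact le_max_left _ _)
  have hKc : (K : ℂ) ≠ 0 := by exact_mod_cast hKn.ne'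
  have e1 : cexp z = cexp (z / K) ^ K := by
    rw [← Complex.exp_nat_mul]
    congr 1
    field_simp
  have hzK : ‖z / K‖ = ‖z‖ / K := by rw [norm_div, Complex.norm_natCast]
  have hzK1 : ‖z / K‖ ≤ 1 := by
    rw [hzK, div_le_one hK0]
    linarith
  have ha : ‖1 + z / K‖ ≤ Real.exp (‖z‖ / K) := by
    refine (norm_add_le _ _).trans ?_
    rw [norm_one, hzK]
    linarith [Real.add_one_le_exp (‖z‖ / K)]
  have hb : ‖cexp (z / K)‖ ≤ Real.exp (‖z‖ / K) := by
    rw [← hzK]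
    exact Complex.norm_exp_le_exp_norm _
  have hab : ‖(1 + z / K) - cexp (z / K)‖ ≤ (‖z‖ / K) ^ 2 := by
    have h := Complex.norm_exp_sub_one_sub_id_le hzK1
    rw [hzK] at h
    rw [norm_sub_rev]
    have e : cexp (z / K) - (1 + z / K) = cexp (z / K) - 1 - z / K := by ring
    rw [e]
    exact h
  have hgs : (1 + z / K) ^ K - cexp (z / K) ^ K =
      ((1 + z / K) - cexp (z / K)) * ∑ i ∈ Finset.range K, (1 + z / K) ^ i * cexp (z / K) ^ (K - 1 - i) := by
    rw [mul_comm]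
    exact (Commute.all _ _).geom_sum₂_mul K |>.symm
  have hsum : ‖∑ i ∈ Finset.range K, (1 + z / K) ^ i * cexp (z / K) ^ (K - 1 - i)‖ ≤ K * Real.exp ‖z‖ := by
    refine (norm_sum_le _ _).trans ?_
    calc ∑ i ∈ Finset.range K, ‖(1 + z / K) ^ i * cexp (z / K) ^ (K - 1 - i)‖ ≤
        ∑ _i ∈ Finset.range K, Real.exp ‖z‖ := by
          refine Finset.sum_le_sum fun i hi => ?_
          rw [Finset.mem_range] at hi
          rw [norm_mul, norm_pow, norm_pow]
          calc ‖1 + z / K‖ ^ i * ‖cexp (z / K)‖ ^ (K - 1 - i) ≤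
              Real.exp (‖z‖ / K) ^ i * Real.exp (‖z‖ / K) ^ (K - 1 - i) := by gcongr
            _ = Real.exp (‖z‖ / K) ^ (K - 1) := by
                rw [← pow_add]
                congr 1
                omega
            _ = Real.exp ((K - 1 : ℕ) * (‖z‖ / K)) := by rw [← Real.exp_nat_mul]
            _ ≤ Real.exp ‖z‖ := by
                apply Real.exp_le_exp.2
                rw [← mul_div_assoc, div_le_iff₀ hK0, mul_comm]
                have : ((K - 1 : ℕ) : ℝ) ≤ K := by exact_mod_cast Nat.sub_le _ _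
                gcongr
      _ = K * Real.exp ‖z‖ := by rw [Finset.sum_const, Finset.card_range, nsmul_eq_mul]
  rw [e1, hgs, norm_mul]
  calc ‖(1 + z / K) - cexp (z / K)‖ * ‖∑ i ∈ Finset.range K, (1 + z / K) ^ i * cexp (z / K) ^ (K - 1 - i)‖ ≤
      (‖z‖ / K) ^ 2 * (K * Real.exp ‖z‖) := by gcongr
    _ = ‖z‖ ^ 2 * Real.exp ‖z‖ / K := by field_simp
    _ ≤ A' ^ 2 * Real.exp A' / K := by gcongr
    _ ≤ ε := by
        rw [div_le_iff₀ hε] at hK2
        rw [div_le_iff₀ hK0]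
        linarith

/-- approximation by polynomials with real zeros -/
lemma approx {g : ℂ → ℂ} (hg : Differentiable ℂ g) (hs : Sym g) (h0 : g 0 ≠ 0) {κ C0 : ℝ} (hκ : 0 ≤ κ)
    (hκ2 : κ < 2) (hC : 0 ≤ C0)
    (hgr : ∀ z : ℂ, ‖g z‖ ≤ Real.exp (C0 * (1 + ‖z‖) ^ κ)) (hz : ∀ z, g z = 0 → z.im = 0)
    (R ε : ℝ) (hε : 0 < ε) :
    ∃ Q : ℂ[X], (∀ w, Q.IsRoot w → w.im = 0) ∧ ∀ z : ℂ, ‖z‖ ≤ R → ‖Q.eval z - g z‖ ≤ ε := by
  obtain ⟨R1, hR1⟩ : ∃ R1 : ℝ, R1 = max R 1 := ⟨_, rfl⟩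
  have hR11 : 1 ≤ R1 := by rw [hR1]; exact le_max_right _ _
  obtain ⟨B, hB⟩ : ∃ B : ℝ, B = Real.exp (C0 * (1 + R1) ^ κ) := ⟨_, rfl⟩
  have hB0 : 0 < B := by rw [hB]; exact Real.exp_pos _
  obtain ⟨δ, hδ⟩ : ∃ δ : ℝ, δ = min 1 (ε / (4 * B)) := ⟨_, rfl⟩
  have hδ0 : 0 < δ := by rw [hδ]; positivity
  have hδ1 : δ ≤ 1 := by rw [hδ]; exact min_le_left _ _
  have hδB : B * (2 * δ) ≤ ε / 2 := by
    have h1 : δ ≤ ε / (4 * B) := by rw [hδ]; exact min_le_right _ _
    rw [le_div_iff₀ (by positivity)] at h1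
    linarith
  obtain ⟨L, hL⟩ : ∃ L : ℝ, L = |Real.log ‖g 0‖| := ⟨_, rfl⟩
  have hL0 : 0 ≤ L := by rw [hL]; exact abs_nonneg _
  -- the radius
  obtain ⟨ρ, hρ1, hρ2, hρ3⟩ : ∃ ρ : ℝ, 1 ≤ ρ ∧ 2 * R1 < ρ ∧
      16 * R1 ^ 2 * (C0 * 3 ^ κ + L) * ρ ^ (-(2 - κ)) ≤ δ := by
    have h1 : Tendsto (fun ρ : ℝ => 16 * R1 ^ 2 * (C0 * 3 ^ κ + L) * ρ ^ (-(2 - κ))) atTop (𝓝 0) := by
      have := (tendsto_rpow_neg_atTop (by linarith : 0 < 2 - κ)).const_mul (16 * R1 ^ 2 * (C0 * 3 ^ κ + L))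
      rwa [mul_zero] at this
    obtain ⟨ρ, h2, h3, h4⟩ := ((h1.eventually_le_const hδ0).and ((eventually_ge_atTop 1).and
      (eventually_gt_atTop (2 * R1)))).exists
    exact ⟨ρ, h3, h4, h2⟩
  have hρ0 : 0 < ρ := by linarith
  obtain ⟨M, hM⟩ : ∃ M : ℝ, M = C0 * (1 + 2 * ρ) ^ κ := ⟨_, rfl⟩
  obtain ⟨P, H, hP0, hH, hH0, hHs, hHb, hFH, hHz⟩ := split_real' (ρ := ρ) (M := M) hρ0 hg h0 hs (by
    intro w hw
    rw [mem_closedBall_zero_iff] at hw
    refine (hgr w).trans (Real.exp_le_exp.2 ?_)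
    rw [hM]
    refine mul_le_mul_of_nonneg_left ?_ hC
    exact Real.rpow_le_rpow (by positivity) (by linarith) hκ)
  obtain ⟨-, E, hE⟩ := Pool.Agent.N400.GN.base1 hH hρ0 (fun u hu => hHz u (ball_subset_closedBall hu))
    (M := M) (fun w hw => hHb w (ball_subset_closedBall (ball_subset_ball (by linarith) hw)))
  rw [hH0] at hE
  -- the derivative at `0` is real
  have hbre : ∃ b : ℝ, deriv H 0 / g 0 = (b : ℂ) := by
    have h1 : deriv H 0 = conj (deriv H 0) := by
      have h2 := (hH 0).hasDerivAt.conj_conj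
      rw [map_zero] at h2
      have e : (conj ∘ H ∘ conj : ℂ → ℂ) = H := by
        funext w
        simp only [Function.comp_apply]
        rw [hHs w, Complex.conj_conj]
      rw [e] at h2
      exact (hH 0).hasDerivAt.unique h2
    have h3 : g 0 = conj (g 0) := by
      have := hs 0
      rwa [map_zero] at this
    refine ⟨(deriv H 0 / g 0).re, ?_⟩
    have h4 : conj (deriv H 0 / g 0) = deriv H 0 / g 0 := by
      rw [map_div₀, ← h1, ← h3]
    exact (Complex.conj_eq_iff_re.1 h4).symm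
  obtain ⟨b, hb⟩ := hbre
  rw [hb] at hE
  -- the error
  have hErr : ∀ w : ℂ, ‖w‖ ≤ R1 → ‖w‖ < ρ / 2 ∧ ‖E w‖ ≤ δ := by
    intro w hw
    have h1 : ‖w‖ < ρ / 2 := by linarith
    refine ⟨h1, (hE w h1).2.trans ?_⟩
    have hρκ : 1 ≤ ρ ^ κ := Real.one_le_rpow hρ1 hκ
    have h2 : M ≤ C0 * 3 ^ κ * ρ ^ κ := by
      rw [hM, mul_assoc, ← Real.mul_rpow (by norm_num) hρ0.le]
      gcongr
      linarith
    have h3 : M - Real.log ‖g 0‖ ≤ (C0 * 3 ^ κ + L) * ρ ^ κ := by
      have h4 : -Real.log ‖g 0‖ ≤ L := by rw [hL]; exact neg_le_abs _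
      nlinarith
    have h6 : (‖w‖ / ρ) ^ 2 ≤ R1 ^ 2 * ρ ^ (-2 : ℝ) := by
      rw [div_pow, div_eq_mul_inv, Real.rpow_neg hρ0.le, Real.rpow_two]
      gcongr
    have h7 : ρ ^ κ * ρ ^ (-2 : ℝ) = ρ ^ (-(2 - κ)) := by
      rw [← Real.rpow_add hρ0]
      congr 1
      ring
    have h8 : 0 ≤ C0 * 3 ^ κ + L := by positivity
    calc 16 * (M - Real.log ‖g 0‖) * (‖w‖ / ρ) ^ 2 ≤ 16 * ((C0 * 3 ^ κ + L) * ρ ^ κ) * (‖w‖ / ρ) ^ 2 := by
          gcongr
      _ ≤ 16 * ((C0 * 3 ^ κ + L) * ρ ^ κ) * (R1 ^ 2 * ρ ^ (-2 : ℝ)) := by gcongr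
      _ = 16 * R1 ^ 2 * (C0 * 3 ^ κ + L) * (ρ ^ κ * ρ ^ (-2 : ℝ)) := by ring
      _ ≤ δ := by rw [h7]; exact hρ3
  -- a bound for `P`
  obtain ⟨B2, hB2⟩ : ∃ B2 : ℝ, ∀ z : ℂ, ‖z‖ ≤ R1 → ‖g 0 * aeval z P‖ ≤ B2 := by
    have hc : Continuous fun z : ℂ => g 0 * aeval z P := continuous_const.mul P.continuous_aeval
    obtain ⟨B, hB⟩ := (isCompact_closedBall (0 : ℂ) R1).exists_bound_of_continuousOn hc.continuousOn
    exact ⟨B, fun z hz => hB z (by simpa using hz)⟩
  have hB20 : 0 ≤ B2 := (norm_nonneg _).trans (hB2 0 (by rw [norm_zero]; linarith))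
  obtain ⟨K, hK0, hK⟩ := pow_exp (|b| * R1) (ε / (2 * (B2 + 1))) (by positivity)
  have hKc : (K : ℂ) ≠ 0 := by exact_mod_cast hK0.ne'
  refine ⟨Polynomial.C (g 0) * P.map (algebraMap ℝ ℂ) * (1 + Polynomial.C ((b : ℂ) / K) * X) ^ K,
    fun w hw => ?_, fun z hzR => ?_⟩
  · rw [Polynomial.IsRoot.def, Polynomial.eval_mul, Polynomial.eval_mul, Polynomial.eval_C,
      Polynomial.eval_map_algebraMap, Polynomial.eval_pow] at hw
    rcases mul_eq_zero.1 hw with h1 | h1
    · have h2 := (mul_eq_zero.1 h1).resolve_left h0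
      exact hz w (by rw [hFH w, h2, zero_mul])
    · have h2 := pow_eq_zero_iff (hK0.ne') |>.1 h1
      simp only [Polynomial.eval_add, Polynomial.eval_one, Polynomial.eval_mul, Polynomial.eval_C,
        Polynomial.eval_X] at h2
      have hb0 : b ≠ 0 := by
        rintro rfl
        simp at h2
      have h3 : w = ((-(K : ℝ) / b : ℝ) : ℂ) := by
        have hbc : (b : ℂ) ≠ 0 := by exact_mod_cast hb0
        have h4 : (b : ℂ) * w = -K := by
          have h5 : (1 + (b : ℂ) / K * w) * K = 0 := by rw [h2, zero_mul]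
          have h6 : (1 + (b : ℂ) / K * w) * K = K + b * w := by field_simp
          rw [h6] at h5
          linear_combination h5
        push_cast
        rw [eq_div_iff hbc, mul_comm]
        exact h4
      rw [h3, ofReal_im]
  · have hz1 : ‖z‖ ≤ R1 := hzR.trans (by rw [hR1]; exact le_max_left _ _)
    obtain ⟨h1, h2⟩ := hErr z hz1
    have h3 := (hE z h1).1
    have hev : (Polynomial.C (g 0) * P.map (algebraMap ℝ ℂ) * (1 + Polynomial.C ((b : ℂ) / K) * X) ^ K).eval z =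
        g 0 * aeval z P * (1 + (b * z) / K) ^ K := by
      simp only [Polynomial.eval_mul, Polynomial.eval_C, Polynomial.eval_map_algebraMap, Polynomial.eval_pow,
        Polynomial.eval_add, Polynomial.eval_one, Polynomial.eval_X]
      congr 2
      ring
    rw [hev]
    have hgz : g z = g 0 * aeval z P * cexp (b * z) * cexp (E z) := by
      rw [hFH z, h3, Complex.exp_add]
      ring
    have hT : g 0 * aeval z P * cexp (b * z) = g z * cexp (-E z) := by
      have h9 : cexp (E z) * cexp (-E z) = 1 := by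
        rw [← Complex.exp_add, add_neg_cancel, Complex.exp_zero]
      rw [hgz]
      linear_combination (-(g 0 * aeval z P * cexp (b * z))) * h9
    have hbz : ‖(b : ℂ) * z‖ ≤ |b| * R1 := by
      rw [norm_mul, Complex.norm_real, Real.norm_eq_abs]
      gcongr
    have h4 : ‖g 0 * aeval z P * ((1 + (b * z) / K) ^ K - cexp (b * z))‖ ≤ ε / 2 := by
      rw [norm_mul]
      calc ‖g 0 * aeval z P‖ * ‖(1 + (b * z) / K) ^ K - cexp (b * z)‖ ≤ (B2 + 1) * (ε / (2 * (B2 + 1))) := by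
            gcongr
            · linarith [hB2 z hz1]
            · exact hK _ hbz
        _ = ε / 2 := by field_simp
    have h5 : ‖g z * (cexp (-E z) - 1)‖ ≤ ε / 2 := by
      rw [norm_mul]
      have h6 : ‖g z‖ ≤ B := by
        rw [hB]
        refine (hgr z).trans (Real.exp_le_exp.2 ?_)
        gcongr
      have h7 : ‖cexp (-E z) - 1‖ ≤ 2 * δ := by
        have h8 : ‖-E z‖ ≤ 1 := by rw [norm_neg]; linarith
        refine (Complex.norm_exp_sub_one_le h8).trans ?_
        rw [norm_neg]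
        linarith
      calc ‖g z‖ * ‖cexp (-E z) - 1‖ ≤ B * (2 * δ) := by gcongr
        _ ≤ ε / 2 := hδB
    have e : g 0 * aeval z P * (1 + (b * z) / K) ^ K - g z =
        g 0 * aeval z P * ((1 + (b * z) / K) ^ K - cexp (b * z)) + g z * (cexp (-E z) - 1) := by
      have : g z * (cexp (-E z) - 1) = g 0 * aeval z P * cexp (b * z) - g z := by rw [hT]; ring
      rw [this]
      ring
    rw [e]
    refine (norm_add_le _ _).trans ?_
    linarith

/-- approximable functions are locally uniform limits -/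
lemma rr_of_approx {g : ℂ → ℂ} (hg : Differentiable ℂ g) (hne : ∃ z, g z ≠ 0)
    (h : ∀ R ε : ℝ, 0 < ε → ∃ Q : ℂ[X], (∀ w, Q.IsRoot w → w.im = 0) ∧
      ∀ z : ℂ, ‖z‖ ≤ R → ‖Q.eval z - g z‖ ≤ ε) : RR g := by
  choose Q hQ1 hQ2 using fun N : ℕ => h N (1 / ((N : ℝ) + 1)) (by positivity)
  refine ⟨hg, hne, Q, hQ1, ?_⟩
  rw [← tendstoLocallyUniformlyOn_univ, tendstoLocallyUniformlyOn_iff_forall_isCompact isOpen_univ]
  intro K _ hK
  obtain ⟨R, hR⟩ := hK.isBounded.exists_norm_le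
  rw [Metric.tendstoUniformlyOn_iff]
  intro ε hε
  have h1 : Tendsto (fun N : ℕ => 1 / ((N : ℝ) + 1)) atTop (𝓝 0) := tendsto_one_div_add_atTop_nhds_zero_nat
  filter_upwards [h1.eventually_lt_const hε, tendsto_natCast_atTop_atTop.eventually_ge_atTop R] with N h2 h3
  intro z hz
  rw [dist_comm, dist_eq_norm]
  exact (hQ2 N z ((hR z hz).trans h3)).trans_lt h2

/-- a nonzero polynomial is bounded below far out -/
lemma poly_lower {P : ℝ[X]} (hP : P ≠ 0) : ∃ R1 c : ℝ, 0 < c ∧ ∀ w : ℂ, R1 ≤ ‖w‖ → c ≤ ‖aeval w P‖ := by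
  have hP' : P.map (algebraMap ℝ ℂ) ≠ 0 :=
    (Polynomial.map_ne_zero_iff (algebraMap ℝ ℂ).injective).2 hP
  have hev : ∀ w : ℂ, aeval w P = (P.map (algebraMap ℝ ℂ)).eval w := fun w =>
    (Polynomial.eval_map_algebraMap P w).symm
  by_cases hd : 0 < (P.map (algebraMap ℝ ℂ)).degree
  · have h1 := Polynomial.tendsto_norm_atTop (P.map (algebraMap ℝ ℂ)) hd (l := comap (fun w : ℂ => ‖w‖) atTop)
      (z := id) tendsto_comap
    have h2 := h1.eventually_ge_atTop 1
    rw [eventually_comap] at h2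
    obtain ⟨R1, hR1⟩ := eventually_atTop.1 h2
    refine ⟨R1, 1, one_pos, fun w hw => ?_⟩
    rw [hev]
    exact hR1 _ hw w rfl
  · have h1 := Polynomial.eq_C_of_degree_le_zero (not_lt.1 hd)
    refine ⟨0, ‖(P.map (algebraMap ℝ ℂ)).coeff 0‖, ?_, fun w _ => ?_⟩
    · rw [norm_pos_iff]
      intro h
      rw [h, Polynomial.C_0] at h1
      exact hP' h1
    · rw [hev, h1, Polynomial.eval_C, Polynomial.coeff_C_zero]

/-- growth of the quotient -/
lemma gro_quot {κ : ℝ} (hκ : 0 ≤ κ) {F G : ℂ → ℂ} {P : ℝ[X]} (hP : P ≠ 0) (hG : Continuous G) (hF : GrE κ F)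
    (h : ∀ w, F w = aeval w P * G w) : GrE κ G := by
  obtain ⟨C0, hC, hF⟩ := hF
  obtain ⟨R1, c, hc, hR1⟩ := poly_lower hP
  obtain ⟨B, hB⟩ := (isCompact_closedBall (0 : ℂ) R1).exists_bound_of_continuousOn hG.continuousOn
  obtain ⟨D, hD⟩ : ∃ D : ℝ, D = |Real.log c| + |B| := ⟨_, rfl⟩
  have hD0 : 0 ≤ D := by rw [hD]; positivity
  have hone : ∀ w : ℂ, 1 ≤ (1 + ‖w‖) ^ κ := fun w =>
    Real.one_le_rpow (by linarith [norm_nonneg w]) hκ
  refine ⟨C0 + D, by positivity, fun w => ?_⟩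
  rcases le_total ‖w‖ R1 with hw | hw
  · refine (hB w (by simpa using hw)).trans ?_
    calc B ≤ |B| + 1 := by linarith [le_abs_self B]
      _ ≤ Real.exp |B| := Real.add_one_le_exp _
      _ ≤ Real.exp ((C0 + D) * (1 + ‖w‖) ^ κ) := by
          apply Real.exp_le_exp.2
          have h1 : |B| ≤ C0 + D := by
            rw [hD]
            linarith [abs_nonneg (Real.log c)]
          have h2 := hone w
          nlinarith [abs_nonneg B]
  · have h1 := hR1 w hw
    have h2 : 0 < ‖aeval w P‖ := by linarith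
    have h3 : ‖G w‖ = ‖F w‖ / ‖aeval w P‖ := by
      rw [h w, norm_mul]
      field_simp
    rw [h3, div_le_iff₀ h2]
    have h4 : Real.exp (-D) ≤ ‖aeval w P‖ := by
      refine le_trans ?_ h1
      calc Real.exp (-D) ≤ Real.exp (Real.log c) := by
            apply Real.exp_le_exp.2
            rw [hD]
            linarith [neg_abs_le (Real.log c), abs_nonneg B]
        _ = c := Real.exp_log hc
    calc ‖F w‖ ≤ Real.exp (C0 * (1 + ‖w‖) ^ κ) := hF w
      _ ≤ Real.exp ((C0 + D) * (1 + ‖w‖) ^ κ) * Real.exp (-D) := by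
          rw [← Real.exp_add]
          apply Real.exp_le_exp.2
          have := hone w
          nlinarith
      _ ≤ Real.exp ((C0 + D) * (1 + ‖w‖) ^ κ) * ‖aeval w P‖ := by gcongr

/-- growth of a real translate -/
lemma gro_shift {κ : ℝ} (hκ : 0 ≤ κ) {F : ℂ → ℂ} (hF : GrE κ F) (b : ℂ) : GrE κ (fun z => F (z + b)) := by
  obtain ⟨C0, hC, hF⟩ := hF
  refine ⟨C0 * (1 + ‖b‖) ^ κ, by positivity, fun z => (hF _).trans (Real.exp_le_exp.2 ?_)⟩
  rw [mul_assoc, ← Real.mul_rpow (by positivity) (by positivity)]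
  gcongr
  have := norm_add_le z b
  nlinarith [norm_nonneg z, norm_nonneg b]

/-- Factorisation, general exponent. -/
theorem factor {κ : ℝ} (hκ : 0 ≤ κ) (hκ2 : κ < 2) (f : ℂ → ℂ) (hf : Differentiable ℂ f) (hs : Sym f)
    (hgr : GrE κ f) (hfin : (NRZ f).Finite) (ρ : ℝ) :
    ∃ (P : ℝ[X]) (g : ℂ → ℂ), P ≠ 0 ∧ RR g ∧ Sym g ∧ GrE κ g ∧ (∀ w, f w = aeval w P * g w) ∧
      ∀ w, ‖w‖ ≤ ρ → g w ≠ 0 := by
  -- `f` is not identically zero
  have hne : ∃ z, f z ≠ 0 := by
    by_contra hcon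
    push Not at hcon
    have h1 : NRZ f = {z : ℂ | z.im ≠ 0} := by
      ext z
      simp [NRZ, hcon z]
    rw [h1] at hfin
    have h2 : Set.InjOn (fun n : ℕ => ((n : ℂ) + 1) * I) Set.univ := by
      intro a _ b _ hab
      have h3 : ((a : ℂ) + 1) * I = ((b : ℂ) + 1) * I := hab
      have h4 := mul_right_cancel₀ I_ne_zero h3
      have h5 : (a : ℂ) = b := by linear_combination h4
      exact_mod_cast h5
    refine Set.infinite_of_injective_forall_mem (f := fun n : ℕ => ((n : ℂ) + 1) * I)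
      (Set.injOn_univ.1 h2) (fun n => ?_) hfin
    show (((n : ℂ) + 1) * I).im ≠ 0
    simp
    positivity
  -- a real point where `f` does not vanish
  obtain ⟨β, hβ⟩ : ∃ β : ℝ, f β ≠ 0 := by
    by_contra hcon
    push Not at hcon
    obtain ⟨z, hz⟩ := hne
    apply hz
    have h1 : AnalyticOnNhd ℂ f Set.univ := fun w _ => hf.analyticAt w
    have h2 : ∃ᶠ w in 𝓝[≠] (0 : ℂ), f w = 0 := by
      have h3 : Tendsto (fun n : ℕ => ((1 / ((n : ℝ) + 1) : ℝ) : ℂ)) atTop (𝓝[≠] (0 : ℂ)) := by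
        rw [tendsto_nhdsWithin_iff]
        constructor
        · have h4 := tendsto_one_div_add_atTop_nhds_zero_nat (𝕜 := ℝ)
          have h5 := (Complex.continuous_ofReal.tendsto 0).comp h4
          rw [Complex.ofReal_zero] at h5
          exact h5
        · refine Eventually.of_forall fun n => ?_
          have h7 : (1 / ((n : ℝ) + 1) : ℝ) ≠ 0 := by positivity
          show ((1 / ((n : ℝ) + 1) : ℝ) : ℂ) ∉ ({0} : Set ℂ)
          rw [Set.mem_singleton_iff]
          exact Complex.ofReal_ne_zero.2 h7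
      exact h3.frequently (Frequently.of_forall fun n => hcon _)
    have h6 := h1.eqOn_zero_of_preconnected_of_frequently_eq_zero isPreconnected_univ (Set.mem_univ (0 : ℂ)) h2
    exact h6 (Set.mem_univ z)
  obtain ⟨F, hF⟩ : ∃ F : ℂ → ℂ, F = fun z => f (z + β) := ⟨_, rfl⟩
  have hFd : Differentiable ℂ F := by
    rw [hF]
    exact hf.comp (differentiable_id.add_const _)
  have hF0 : F 0 ≠ 0 := by
    rw [hF]
    simpa using hβ
  have hFs : Sym F := by
    intro z
    rw [hF]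
    show f (conj z + β) = conj (f (z + β))
    rw [← hs]
    simp
  have hFg : GrE κ F := by
    rw [hF]
    exact gro_shift hκ hgr β
  -- the radius
  obtain ⟨r0, hr0⟩ := hfin.isBounded.exists_norm_le
  obtain ⟨r, hr⟩ : ∃ r : ℝ, r = |ρ| + |r0| + |β| + 1 := ⟨_, rfl⟩
  have hr1 : 0 < r := by rw [hr]; positivity
  obtain ⟨C0, hC, hFg'⟩ := id hFg
  obtain ⟨P1, G1, hP10, hG1, hG10, hG1s, -, hFG, hG1z⟩ := split_real' (ρ := r)
    (M := C0 * (1 + 2 * r) ^ κ) hr1 hFd hF0 hFs (by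
      intro w hw
      rw [mem_closedBall_zero_iff] at hw
      refine (hFg' w).trans (Real.exp_le_exp.2 ?_)
      gcongr)
  have hP1 : P1 ≠ 0 := by
    intro h
    rw [h] at hP10
    simp at hP10
  have hG1g : GrE κ G1 := gro_quot hκ hP1 hG1.continuous hFg hFG
  have hG1r : ∀ z, G1 z = 0 → z.im = 0 := by
    intro z hz
    by_contra him
    have h1 : F z = 0 := by rw [hFG z, hz, mul_zero]
    have h2 : z + β ∈ NRZ f := by
      refine ⟨?_, by simpa using him⟩
      rw [hF] at h1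
      exact h1
    have h3 := hr0 _ h2
    apply hG1z z _ hz
    rw [mem_closedBall_zero_iff]
    have h4 : ‖z‖ ≤ ‖z + β‖ + ‖(β : ℂ)‖ := by
      have := norm_sub_le (z + (β : ℂ)) β
      rwa [add_sub_cancel_right] at this
    rw [Complex.norm_real, Real.norm_eq_abs] at h4
    rw [hr]
    linarith [le_abs_self r0, abs_nonneg ρ]
  obtain ⟨C1, hC1, hG1g'⟩ := id hG1g
  have hG1n : G1 0 ≠ 0 := by rw [hG10]; exact hF0
  have hgd : Differentiable ℂ (fun w => G1 (w - β)) := hG1.comp (differentiable_id.sub_const _)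
  refine ⟨P1.comp (X - Polynomial.C β), fun w => G1 (w - β), ?_, ?_, ?_, ?_, ?_, ?_⟩
  · intro h
    apply hP1
    have h1 := congrArg (fun Q : ℝ[X] => Q.comp (X + Polynomial.C β)) h
    simpa [Polynomial.comp_assoc] using h1
  · refine rr_of_approx hgd ⟨β, by simpa using hG1n⟩ fun R ε hε => ?_
    obtain ⟨Q, hQ1, hQ2⟩ := approx hG1 hG1s hG1n hκ hκ2 hC1 hG1g' hG1r (R + |β|) ε hε
    refine ⟨Q.comp (X - Polynomial.C (β : ℂ)), fun w hw => ?_, fun z hz => ?_⟩
    · rw [Polynomial.IsRoot.def, Polynomial.eval_comp] at hw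
      have h1 := hQ1 _ hw
      simpa using h1
    · rw [Polynomial.eval_comp]
      have h1 := hQ2 (z - β) (by
        refine (norm_sub_le _ _).trans ?_
        rw [Complex.norm_real, Real.norm_eq_abs]
        linarith)
      simpa using h1
  · intro z
    show G1 (conj z - β) = conj (G1 (z - β))
    rw [← hG1s]
    simp
  · have := gro_shift hκ hG1g (-(β : ℂ))
    exact this
  · intro w
    have h1 := hFG (w - β)
    rw [hF] at h1
    have h2 : f w = f (w - β + β) := by rw [sub_add_cancel]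
    rw [h2]
    rw [show f (w - β + β) = aeval (w - β) P1 * G1 (w - β) from h1]
    congr 1
    rw [Polynomial.aeval_comp]
    simp
  · intro w hw
    apply hG1z
    rw [mem_closedBall_zero_iff]
    refine (norm_sub_le _ _).trans ?_
    rw [Complex.norm_real, Real.norm_eq_abs, hr]
    linarith [le_abs_self ρ, abs_nonneg r0]

/-- Task H1 -/
theorem t_H1 : S_H1 := fun f hf hs hgr hfin ρ => factor (by norm_num) (by norm_num) f hf hs hgr hfin ρ

/-- Task C1 -/
theorem t_C1 : S_C1 := by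
  intro f hf hs hgr hfin
  obtain ⟨C, κ, hC, hκ, hκ2, h⟩ := hgr
  obtain ⟨P, g, hP, hg, hgs, -, hfac, -⟩ := factor hκ hκ2 f hf hs ⟨C, hC, h⟩ hfin 0
  refine ⟨P.natDegree, ?_⟩
  have := Pool.Agent.N400.GN.h2 P g hP hg hgs
  rw [← funext hfac] at this
  exact this

end Pool.Agent.Helper41x.GN
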