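import Pool.Agent.Helper41x.GN.H1
import Pool.Agent.N963.GN.Main
import Pool.Agent.N963.GN.T4b
import Pool.Agent.N282.GN.T5
import Pool.Agent.N868.GN.T6
import Pool.Agent.N134.GN.C2
import Pool.Agent.N455.GN.C3
import Pool.Agent.N525.GN.C5
import Pool.Agent.N558.GN.Z0
import Pool.Agent.N712.GN.Z1

set_option autoImplicit false

/-!
# Preimages under differential operators of infinite order from the Laguerre-Polya class
-/

namespace Pool.Agent.Helper41x.GN

open Complex Filter Topology MeasureTheory Polynomial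
open scoped ComplexConjugate
open Pool.Agent.N963.GN

variable {K : ℂ → ℂ} {α : ℝ}

/-- The Laguerre inequality is invariant under `z ↦ -z`. -/
lemma sl_neg {G : ℂ → ℂ} (h : SL G) : SL (fun z => -G (-z)) := by
  intro A
  obtain ⟨x1, hx1, h⟩ := h A
  refine ⟨x1, hx1, fun x hx => ?_⟩
  have h1 := h (-x) (by rwa [abs_neg])
  have e1 : deriv (fun z => -G (-z)) = fun z => deriv G (-z) := by
    funext z
    rw [deriv.fun_neg, deriv_comp_neg, neg_neg]
  have e2 : deriv (deriv (fun z => -G (-z))) = fun z => -deriv (deriv G) (-z) := by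
    rw [e1]
    funext z
    rw [deriv_comp_neg]
  rw [e2, e1]
  rw [abs_neg, Complex.ofReal_neg] at h1
  simp only [norm_neg]
  refine h1.trans (le_of_eq ?_)
  congr 1
  ring

/-- The Laguerre inequality for a real multiple. -/
lemma sl_smul {G : ℂ → ℂ} {c : ℝ} (hc : c ≠ 0) (h : SL (fun z => (c : ℂ) * G z)) : SL G := by
  intro A
  obtain ⟨x1, hx1, h⟩ := h A
  refine ⟨x1, hx1, fun x hx => ?_⟩
  have h1 := h x hx
  have e1 : deriv (fun z => (c : ℂ) * G z) = fun z => (c : ℂ) * deriv G z := by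
    funext z
    rw [deriv_const_mul_field]
  have e2 : deriv (deriv (fun z => (c : ℂ) * G z)) = fun z => (c : ℂ) * deriv (deriv G) z := by
    rw [e1]
    funext z
    rw [deriv_const_mul_field]
  rw [e2, e1] at h1
  have e3 : ((c : ℂ) * deriv G x) ^ 2 - (c : ℂ) * G x * ((c : ℂ) * deriv (deriv G) x) =
      ((c ^ 2 : ℝ) : ℂ) * ((deriv G x) ^ 2 - G x * deriv (deriv G) x) := by
    push_cast
    ring
  simp only at h1
  rw [e3, Complex.re_ofReal_mul, norm_mul, mul_pow, Complex.norm_real, Real.norm_eq_abs, sq_abs] at h1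
  have hc2 : 0 < c ^ 2 := by positivity
  have h2 : c ^ 2 * (A * Real.log |x| * ‖G x‖ ^ 2) ≤ c ^ 2 * ((deriv G x) ^ 2 - G x * deriv (deriv G) x).re := by
    linarith
  exact le_of_mul_le_mul_left h2 hc2

lemma deriv_add_exp {g : ℂ → ℂ} (hg : Differentiable ℂ g) (C a : ℂ) :
    deriv (fun z => g z + C * cexp (a * z)) = fun z => deriv g z + C * a * cexp (a * z) := by
  funext z
  have h1 : HasDerivAt (fun z : ℂ => C * cexp (a * z)) (C * a * cexp (a * z)) z := by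
    have h := (((hasDerivAt_id z).const_mul a).cexp).const_mul C
    refine h.congr_deriv ?_
    simp only [id, mul_one]
    ring
  exact ((hg z).hasDerivAt.add h1).deriv

/-- a function with exponentially large part -/
lemma no_sl_exp {g : ℂ → ℂ} (hg : Differentiable ℂ g) {a : ℝ} (ha : 0 < a) {C : ℂ} (hC : C ≠ 0)
    (h0 : Tendsto (fun x : ℝ => g x) atTop (𝓝 0)) (h1 : Tendsto (fun x : ℝ => deriv g x) atTop (𝓝 0))
    (h2 : Tendsto (fun x : ℝ => deriv (deriv g) x) atTop (𝓝 0)) :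
    ¬ SL (fun z => g z + C * cexp (a * z)) := by
  intro h
  obtain ⟨x1, hx1, h⟩ := h 1
  have e1 := deriv_add_exp hg C a
  have e2 : deriv (deriv (fun z => g z + C * cexp (a * z))) =
      fun z => deriv (deriv g) z + C * a * a * cexp (a * z) := by
    rw [e1]
    exact deriv_add_exp (diff_deriv hg) (C * a) a
  rw [e2, e1] at h
  have hCn : 0 < ‖C‖ := norm_pos_iff.2 hC
  -- the exponential is large
  have hE : Tendsto (fun x : ℝ => ‖C‖ * Real.exp (a * x)) atTop atTop :=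
    (Real.tendsto_exp_atTop.comp (tendsto_id.const_mul_atTop ha)).const_mul_atTop hCn
  have hL : Tendsto (fun x : ℝ => Real.log x) atTop atTop := Real.tendsto_log_atTop
  have n0 := h0.norm
  have n1 := h1.norm
  have n2 := h2.norm
  rw [norm_zero] at n0 n1 n2
  obtain ⟨x, hx, hx2, hx3, hx4, hx5, hx6, hx7⟩ :=
    ((eventually_ge_atTop x1).and ((hE.eventually_ge_atTop 4).and ((hL.eventually_ge_atTop (8 * (3 + 2 * a + a ^ 2))).and
      ((n0.eventually_le_const one_pos).and ((n1.eventually_le_const one_pos).and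
        ((n2.eventually_le_const one_pos).and (eventually_ge_atTop 1))))))).exists
  have hx0 : |x| = x := abs_of_pos (by linarith)
  have h3 := h x (by rw [hx0]; exact hx)
  rw [hx0, one_mul] at h3
  obtain ⟨E, hEd⟩ : ∃ E : ℂ, E = C * cexp (a * x) := ⟨_, rfl⟩
  have hEn : ‖E‖ = ‖C‖ * Real.exp (a * x) := by
    rw [hEd, norm_mul, Complex.norm_exp]
    congr 2
    simp
  rw [← hEn] at hx2
  have e3 : (deriv g x + C * a * cexp (a * x)) ^ 2 - (g x + C * cexp (a * x)) *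
      (deriv (deriv g) x + C * a * a * cexp (a * x)) =
      (deriv g x) ^ 2 - g x * deriv (deriv g) x + E * (2 * a * deriv g x - deriv (deriv g) x - a ^ 2 * g x) := by
    rw [hEd]
    ring
  simp only at h3
  rw [e3, ← hEd] at h3
  have h4 : ((deriv g x) ^ 2 - g x * deriv (deriv g) x +
      E * (2 * a * deriv g x - deriv (deriv g) x - a ^ 2 * g x)).re ≤ 2 + ‖E‖ * (1 + 2 * a + a ^ 2) := by
    refine (Complex.re_le_norm _).trans ((norm_add_le _ _).trans (add_le_add ?_ ?_))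
    · refine (norm_sub_le _ _).trans ?_
      rw [norm_pow, norm_mul]
      have := mul_le_mul hx4 hx6 (norm_nonneg _) zero_le_one
      have := pow_le_one₀ (norm_nonneg (deriv g x)) hx5 (n := 2)
      linarith
    · rw [norm_mul]
      refine mul_le_mul_of_nonneg_left ?_ (norm_nonneg _)
      refine (norm_sub_le _ _).trans ?_
      refine (add_le_add (norm_sub_le _ _) le_rfl).trans ?_
      rw [norm_mul, norm_mul, norm_mul, norm_pow, Complex.norm_real, Real.norm_of_nonneg ha.le]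
      have : ‖(2 : ℂ)‖ = 2 := by simp
      rw [this]
      have i1 : 2 * a * ‖deriv g x‖ ≤ 2 * a * 1 := by gcongr
      have i2 : a ^ 2 * ‖g x‖ ≤ a ^ 2 * 1 := by gcongr
      linarith
  have h5 : ‖E‖ / 2 ≤ ‖g x + E‖ := by
    have h6 : ‖E‖ ≤ ‖g x + E‖ + ‖g x‖ := by
      have := norm_sub_le (g x + E) (g x)
      rwa [add_sub_cancel_left] at this
    linarith
  have h7 : (‖E‖ / 2) ^ 2 ≤ ‖g x + E‖ ^ 2 := by gcongr
  have h8 : 8 * (3 + 2 * a + a ^ 2) * (‖E‖ / 2) ^ 2 ≤ Real.log x * ‖g x + E‖ ^ 2 := by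
    have : 0 ≤ Real.log x := Real.log_nonneg hx7
    gcongr
  obtain ⟨q, hq⟩ : ∃ q : ℝ, q = ‖E‖ := ⟨_, rfl⟩
  obtain ⟨s, hs⟩ : ∃ s : ℝ, s = 1 + 2 * a + a ^ 2 := ⟨_, rfl⟩
  have hs0 : 0 < s := by rw [hs]; positivity
  have h9 : 8 * (s + 2) * (q / 2) ^ 2 ≤ 2 + q * s := by
    rw [hq, hs]
    refine le_trans (le_of_eq ?_) (h8.trans (h3.trans h4))
    ring
  rw [← hq] at hx2
  have h10 : 8 * (s + 2) * (q / 2) ^ 2 = 2 * (s * q) * q + 4 * q * q := by ring
  have h11 : 0 < s * q := by positivity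
  nlinarith

/-- solutions of `G' - a G = Lt K`, `a > 0` -/
lemma no_sl_pos (hK : Kern K α) (hM : MS K α) {a : ℝ} (ha : 0 < a) {G : ℂ → ℂ} (hG : Differentiable ℂ G)
    (hX : ∀ z, deriv G z - a * G z = Lt (fun u : ℝ => K (u : ℂ)) z) : ¬ SL G := by
  have hw := wt_real hK ha
  have hXe := X_eq hK ha
  have hG0 : Differentiable ℂ (Lt (fun u : ℝ => Ka K a (u : ℂ))) := diff_Lt hw
  have hac : (a : ℂ) ≠ 0 := by exact_mod_cast ha.ne'
  obtain ⟨g, hg⟩ : ∃ g : ℂ → ℂ, g = fun z => ((-(1 / a) : ℝ) : ℂ) * Lt (fun u : ℝ => Ka K a (u : ℂ)) z := ⟨_, rfl⟩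
  have hgd : Differentiable ℂ g := by
    rw [hg]
    exact hG0.const_mul _
  have hg1 : deriv g = fun z => ((-(1 / a) : ℝ) : ℂ) * deriv (Lt (fun u : ℝ => Ka K a (u : ℂ))) z := by
    rw [hg]
    funext z
    rw [deriv_const_mul_field]
  have hgX : ∀ z, deriv g z - a * g z = Lt (fun u : ℝ => K (u : ℂ)) z := by
    intro z
    have h1 := congrFun hXe z
    rw [← h1, hg1, hg]
    push_cast
    field_simp
    ring
  -- the difference
  obtain ⟨C, hC⟩ : ∃ C : ℂ, ∀ z, G z = g z + C * cexp (a * z) := by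
    obtain ⟨D, hD⟩ : ∃ D : ℂ → ℂ, D = fun z => (G z - g z) * cexp (-(a * z)) := ⟨_, rfl⟩
    have hDd : Differentiable ℂ D := by
      rw [hD]
      exact (hG.sub hgd).mul (by fun_prop)
    have hD0 : ∀ z, deriv D z = 0 := by
      intro z
      rw [hD]
      have h1 := ((hG z).hasDerivAt.sub (hgd z).hasDerivAt).mul
        ((((hasDerivAt_id z).const_mul (a : ℂ)).neg).cexp)
      simp only [id, mul_one] at h1
      refine h1.deriv.trans ?_
      have h2 := hX z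
      have h3 := hgX z
      have h4 : deriv G z - deriv g z = a * (G z - g z) := by linear_combination h2 - h3
      simp only [Pi.sub_apply, Pi.neg_apply]
      rw [h4]
      ring
    refine ⟨D 0, fun z => ?_⟩
    have h5 := is_const_of_deriv_eq_zero hDd hD0 z 0
    rw [← h5, hD]
    simp only
    rw [mul_assoc, ← Complex.exp_add, neg_add_cancel, Complex.exp_zero]
    ring
  have hT0 : Tendsto (fun x : ℝ => g x) atTop (𝓝 0) := by
    rw [hg]
    have h := (Pool.Agent.N712.GN.Lt_tendsto (h := fun u : ℝ => Ka K a (u : ℂ))).const_mul ((-(1 / a) : ℝ) : ℂ)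
    rwa [mul_zero] at h
  have hT1 : Tendsto (fun x : ℝ => deriv g x) atTop (𝓝 0) := by
    rw [hg1, deriv_Lt hw]
    have h := (Pool.Agent.N712.GN.Lt_tendsto (h := fun u : ℝ => Ka K a (u : ℂ) * (I * u))).const_mul
      ((-(1 / a) : ℝ) : ℂ)
    rwa [mul_zero] at h
  have hT2 : Tendsto (fun x : ℝ => deriv (deriv g) x) atTop (𝓝 0) := by
    rw [hg1, deriv_Lt hw]
    have e : (deriv fun z => ((-(1 / a) : ℝ) : ℂ) * Lt (fun u : ℝ => Ka K a (u : ℂ) * (I * u)) z) =
        fun z => ((-(1 / a) : ℝ) : ℂ) * Lt (fun u : ℝ => Ka K a (u : ℂ) * (I * u) * (I * u)) z := by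
      funext z
      rw [deriv_const_mul_field, deriv_Lt hw.mulId]
    rw [e]
    have h := (Pool.Agent.N712.GN.Lt_tendsto (h := fun u : ℝ => Ka K a (u : ℂ) * (I * u) * (I * u))).const_mul
      ((-(1 / a) : ℝ) : ℂ)
    rwa [mul_zero] at h
  have hGe : G = fun z => g z + C * cexp (a * z) := funext hC
  by_cases hC0 : C = 0
  · intro hSL
    have e : G = fun z => ((-(1 / a) : ℝ) : ℂ) * Lt (fun u : ℝ => Ka K a (u : ℂ)) z := by
      rw [hGe, hC0, hg]
      funext z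
      ring
    rw [e] at hSL
    exact Pool.Agent.N868.GN.t_T6 K α hK hM a ha
      (sl_smul (neg_ne_zero.2 (one_div_ne_zero ha.ne')) hSL)
  · rw [hGe]
    exact no_sl_exp hgd ha hC0 hT0 hT1 hT2

/-- solutions of `G' - a G = Lt K` -/
theorem no_sl (hK : Kern K α) (hM : MS K α) (a : ℝ) {G : ℂ → ℂ} (hG : Differentiable ℂ G)
    (hX : ∀ z, deriv G z - a * G z = Lt (fun u : ℝ => K (u : ℂ)) z) : ¬ SL G := by
  rcases lt_trichotomy a 0 with ha | ha | ha
  · obtain ⟨r1, r2, -, -⟩ := Pool.Agent.N170.GN.r K α hK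
    intro hSL
    refine no_sl_pos r1 (r2 hM) (neg_pos.2 ha) (G := fun z => -G (-z)) ?_ ?_ (sl_neg hSL)
    · exact (hG.comp differentiable_neg).neg
    · intro z
      have e1 : deriv (fun z => -G (-z)) z = deriv G (-z) := by
        rw [deriv.fun_neg, deriv_comp_neg, neg_neg]
      have e2 : Lt (fun u : ℝ => K (-(u : ℂ))) z = Lt (fun u : ℝ => K (u : ℂ)) (-z) := by
        have := Pool.Agent.N170.GN.lt_neg (fun u : ℝ => K (u : ℂ)) z
        rw [← this]
        congr 1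
        funext u
        push_cast
        rfl
      rw [e1, e2, ← hX (-z)]
      push_cast
      ring
  · subst ha
    have hX' : ∀ z, deriv G z = Lt (fun u : ℝ => K (u : ℂ)) z := fun z => by
      have := hX z
      simpa using this
    by_cases h0 : K 0 = 0
    · exact Pool.Agent.N712.GN.Z1 K α hK hM h0 G hG hX'
    · exact Pool.Agent.N558.GN.z0 K α hK h0 G hG hX'
  · exact no_sl_pos hK hM ha hG hX

/-- growth of the solutions of `G' - a G = X` -/
lemma gro_ode {G X : ℂ → ℂ} (hG : Differentiable ℂ G) (a : ℝ) (hX : ∀ z, deriv G z - a * G z = X z)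
    (hg : Gro X) : Gro G := by
  obtain ⟨C, hC, hg⟩ := hg
  refine ⟨C + 2 * |a| + ‖G 0‖ + 1, by positivity, fun z => ?_⟩
  obtain ⟨D, hD⟩ : ∃ D : ℂ → ℂ, D = fun z => G z * cexp (-(a * z)) := ⟨_, rfl⟩
  have hDd : ∀ w, HasDerivAt D (X w * cexp (-(a * w))) w := by
    intro w
    rw [hD]
    have h1 := (hG w).hasDerivAt.mul ((((hasDerivAt_id w).const_mul (a : ℂ)).neg).cexp)
    refine h1.congr_deriv ?_
    rw [← hX w]
    simp only [Pi.neg_apply, id, mul_one]
    ring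
  obtain ⟨E, hE⟩ : ∃ E : ℝ, E = Real.exp (C * (1 + ‖z‖) ^ (3 / 2 : ℝ)) := ⟨_, rfl⟩
  have hexp : ∀ w : ℂ, ‖w‖ ≤ ‖z‖ → ‖cexp (-(a * w))‖ ≤ Real.exp (|a| * ‖z‖) := by
    intro w hw
    refine (Complex.norm_exp_le_exp_norm _).trans (Real.exp_le_exp.2 ?_)
    rw [norm_neg, norm_mul, Complex.norm_real, Real.norm_eq_abs]
    gcongr
  have hbd : ∀ w ∈ Metric.closedBall (0 : ℂ) ‖z‖, ‖deriv D w‖ ≤ E * Real.exp (|a| * ‖z‖) := by
    intro w hw
    rw [mem_closedBall_zero_iff] at hw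
    rw [(hDd w).deriv, norm_mul]
    have hXE : ‖X w‖ ≤ E := by
      refine (hg w).trans ?_
      rw [hE]
      gcongr
    exact mul_le_mul hXE (hexp w hw) (norm_nonneg _) ((norm_nonneg _).trans hXE)
  have h1 := Convex.norm_image_sub_le_of_norm_deriv_le (f := D) (fun w _ => (hDd w).differentiableAt) hbd
    (convex_closedBall 0 ‖z‖) (x := 0) (y := z) (by simp) (by simp)
  rw [sub_zero] at h1
  have hD0 : D 0 = G 0 := by rw [hD]; simp
  have hGz : G z = D z * cexp (a * z) := by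
    rw [hD]
    simp only
    rw [mul_assoc, ← Complex.exp_add, neg_add_cancel, Complex.exp_zero, mul_one]
  have hexp2 : ‖cexp (a * z)‖ ≤ Real.exp (|a| * ‖z‖) := by
    refine (Complex.norm_exp_le_exp_norm _).trans (Real.exp_le_exp.2 ?_)
    rw [norm_mul, Complex.norm_real, Real.norm_eq_abs]
  have h2 : ‖D z‖ ≤ ‖G 0‖ + E * Real.exp (|a| * ‖z‖) * ‖z‖ := by
    have h3 : ‖D z‖ ≤ ‖D z - D 0‖ + ‖D 0‖ := by
      have := norm_add_le (D z - D 0) (D 0)
      rwa [sub_add_cancel] at this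
    rw [hD0] at h3 h1
    linarith
  have hE1 : 1 ≤ E := by
    rw [hE]
    exact Real.one_le_exp (by positivity)
  have hA1 : 1 ≤ Real.exp (|a| * ‖z‖) := Real.one_le_exp (by positivity)
  have h4 : ‖G 0‖ + E * Real.exp (|a| * ‖z‖) * ‖z‖ ≤ E * Real.exp (|a| * ‖z‖) * Real.exp (‖G 0‖ + ‖z‖) := by
    have h5 : ‖G 0‖ + ‖z‖ ≤ Real.exp (‖G 0‖ + ‖z‖) := by
      linarith [Real.add_one_le_exp (‖G 0‖ + ‖z‖)]
    have h6 : 1 ≤ E * Real.exp (|a| * ‖z‖) := one_le_mul_of_one_le_of_one_le hE1 hA1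
    have h7 : ‖G 0‖ ≤ E * Real.exp (|a| * ‖z‖) * ‖G 0‖ := le_mul_of_one_le_left (norm_nonneg _) h6
    calc ‖G 0‖ + E * Real.exp (|a| * ‖z‖) * ‖z‖ ≤ E * Real.exp (|a| * ‖z‖) * (‖G 0‖ + ‖z‖) := by linarith
      _ ≤ _ := by gcongr
  rw [hGz, norm_mul]
  calc ‖D z‖ * ‖cexp (a * z)‖ ≤ (E * Real.exp (|a| * ‖z‖) * Real.exp (‖G 0‖ + ‖z‖)) * Real.exp (|a| * ‖z‖) := by
        gcongr
        exact h2.trans h4
    _ = Real.exp (C * (1 + ‖z‖) ^ (3 / 2 : ℝ) + |a| * ‖z‖ + (‖G 0‖ + ‖z‖) + |a| * ‖z‖) := by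
        rw [hE, ← Real.exp_add, ← Real.exp_add, ← Real.exp_add]
    _ ≤ Real.exp ((C + 2 * |a| + ‖G 0‖ + 1) * (1 + ‖z‖) ^ (3 / 2 : ℝ)) := by
        apply Real.exp_le_exp.2
        have h8 : (1 + ‖z‖) ^ (1 : ℝ) ≤ (1 + ‖z‖) ^ (3 / 2 : ℝ) :=
          Real.rpow_le_rpow_of_exponent_le (by linarith [norm_nonneg z]) (by norm_num)
        rw [Real.rpow_one] at h8
        have h9 : (0 : ℝ) ≤ ‖z‖ := norm_nonneg z
        have h10 : (0 : ℝ) ≤ ‖G 0‖ := norm_nonneg _
        have h11 : 0 ≤ |a| := abs_nonneg a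
        nlinarith [mul_le_mul_of_nonneg_left h8 h11, mul_le_mul_of_nonneg_left h8 h10]

/-- **Main theorem.** If `φ` in the Laguerre-Polya class has a zero and `φ(D) G` is the transform of the kernel, then
`G` has infinitely many non-real zeros. -/
theorem op_main (hK : Kern K α) (hM : MS K α) (hL : LD (Lt (fun u : ℝ => K (u : ℂ)))) {φ : ℂ → ℂ} (hφ : LPc φ)
    {a0 : ℂ} (ha0 : φ a0 = 0) {G : ℂ → ℂ} (hG : Differentiable ℂ G) (hs : Sym G) (hgr : Gr2 G)
    (hGX : ∀ z : ℂ, HasSum (trm φ G z) (Lt (fun u : ℝ => K (u : ℂ)) z)) : (NRZ G).Infinite := by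
  intro hfin
  obtain ⟨m, hA⟩ := t_C1 G hG hs hgr hfin
  obtain ⟨him, ψ, hψ, hfac⟩ := Pool.Agent.N455.GN.c3 φ hφ a0 ha0
  obtain ⟨a, rfl⟩ : ∃ a : ℝ, a0 = (a : ℂ) := ⟨a0.re, Complex.ext rfl (by simpa using him)⟩
  have hφe : φ = fun s => (s - (a : ℂ)) * ψ s := funext hfac
  obtain ⟨-, hd1, hs1, hA1, hode⟩ := Pool.Agent.N525.GN.t_C5 Pool.Agent.N134.GN.c2 ψ hψ G hG hgr
  obtain ⟨G1, hG1⟩ : ∃ G1 : ℂ → ℂ, G1 = fun z => ∑' n, trm ψ G z n := ⟨_, rfl⟩
  have hs1' := hs1 hs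
  have hA1' := hA1 m hA
  have hode' : ∀ z, deriv G1 z - a * G1 z = Lt (fun u : ℝ => K (u : ℂ)) z := by
    intro z
    have h1 := hode (a : ℂ) z
    rw [← hφe] at h1
    rw [hG1]
    exact h1.unique (hGX z)
  rw [← hG1] at hd1 hs1' hA1'
  have hgrX : Gro (Lt (fun u : ℝ => K (u : ℂ))) := gro_Lt hK hK.wt (fun u => le_rfl)
  have hdX : Differentiable ℂ (Lt (fun u : ℝ => K (u : ℂ))) := diff_Lt hK.wt
  have hsX : Sym (Lt (fun u : ℝ => K (u : ℂ))) := sym_Lt (fun u => hK.herm u)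
  have hXne := hL.ne
  have hgr1 : Gro G1 := gro_ode hd1 a hode' hgrX
  have hXe : (fun z => deriv G1 z - a * G1 z) = Lt (fun u : ℝ => K (u : ℂ)) := funext hode'
  have hne1 : ∃ z, G1 z ≠ 0 := by
    by_contra hcon
    push Not at hcon
    obtain ⟨z, hz⟩ := hXne
    apply hz
    have e : G1 = fun _ => 0 := funext hcon
    rw [← hode' z, e]
    simp
  have hfin1 := Pool.Agent.N768.GN.a4 m _ hd1 hne1 hA1'
  have hAX : App m (Lt (fun u : ℝ => K (u : ℂ))) := by
    rw [← hXe]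
    exact Pool.Agent.N525.GN.C5.app_sub hd1 hA1' a
  have hfinX := Pool.Agent.N768.GN.a4 m _ hdX hXne hAX
  have hLB := Pool.Agent.N282.GN.t5 t_H1 _ hdX hsX hgrX hfinX hL
  have hSL := t4b t_H1 Pool.Agent.N400.GN.h3 G1 a hd1 hs1' hgr1 hfin1 (by rw [hXe]; exact hL)
    (by rw [hXe]; exact hLB)
  exact no_sl hK hM a hd1 hode' hSL

end Pool.Agent.Helper41x.GN
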